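import Pool.Agent.QPI.Stmts

/-! # Row B_BAS: a maximal independent subfamily -/

namespace Pool.Agent.QPI.H45

open Pool.Agent.QPI

/-- Row B_BAS. -/
theorem bas : BasStmt := by
  intro K V τ _ _ _ _ T
  obtain ⟨κ, a, ha, hs, hl⟩ := exists_linearIndependent' K T
  have : Finite κ := Finite.of_injective a ha
  have := Fintype.ofFinite κ
  obtain ⟨e, -⟩ : ∃ e : κ ≃ Fin (Fintype.card κ), True := ⟨Fintype.equivFin κ, trivial⟩
  refine ⟨Fintype.card κ, a ∘ e.symm, Fintype.card_le_of_injective a ha, ?_, ?_⟩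
  · exact hl.comp e.symm e.symm.injective
  · intro i
    have h1 : T i ∈ Submodule.span K (Set.range (T ∘ a)) := by
      rw [hs]
      exact Submodule.subset_span ⟨i, rfl⟩
    have h2 : Set.range (fun b => T ((a ∘ e.symm) b)) = Set.range (T ∘ a) := by
      have h3 : (fun b => T ((a ∘ e.symm) b)) = (T ∘ a) ∘ e.symm := rfl
      rw [h3, e.symm.surjective.range_comp]
    rw [h2]
    exact h1

end Pool.Agent.QPI.H45
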